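import Pool.Agent.W957.CH.StmB

namespace Pool.Agent.W584.CH

open Pool.Agent.W957.CH Finset

variable {V : Type}

/-- the concatenation of the first blocks -/
def bl (a : ℕ → V) (p : ℕ → List V) (m : ℕ) : List V :=
  ((List.range m).map (fun j => a j :: p j)).flatten

lemma bl_succ (a : ℕ → V) (p : ℕ → List V) (m : ℕ) :
    bl a p (m + 1) = bl a p m ++ (a m :: p m) := by
  simp [bl, List.range_succ]

lemma mem_bl (a : ℕ → V) (p : ℕ → List V) (m : ℕ) (x : V) :
    x ∈ bl a p m ↔ ∃ j, j < m ∧ (x = a j ∨ x ∈ p j) := by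
  simp only [bl, List.mem_flatten, List.mem_map, List.mem_range]
  constructor
  · rintro ⟨l, ⟨j, hj, rfl⟩, hx⟩
    exact ⟨j, hj, List.mem_cons.1 hx⟩
  · rintro ⟨j, hj, hx⟩
    exact ⟨_, ⟨j, hj, rfl⟩, List.mem_cons.2 hx⟩

/-- consecutive elements of the list -/
def RR (h : ℕ) (a : ℕ → V) (p : ℕ → List V) (x y : V) : Prop :=
  (∃ j, j < h ∧ x ∈ p j ∧ y ∈ p j) ∨ (∃ j, j < h ∧ x = a j ∧ (p j).head? = some y) ∨
    ∃ j, j + 1 < h ∧ (p j).getLast? = some x ∧ y = a (j + 1)

lemma chain_mem {Q : V → V → Prop} {l : List V} (hl : l.IsChain Q) :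
    l.IsChain (fun x y => Q x y ∧ x ∈ l ∧ y ∈ l) := by
  rw [List.isChain_iff_getElem] at hl ⊢
  intro i hi
  exact ⟨hl i hi, List.getElem_mem _, List.getElem_mem _⟩

theorem t_BLK : S_BLK := by
  intro V _ G h a p hh hinj hP hdis hap hhead hlast
  set S : V → V → Prop := fun x y => G.Adj x y ∧ RR h a p x y with hS
  have hPS : ∀ j, j < h → (a j :: p j).IsChain S := by
    intro j hj
    rw [List.isChain_cons]
    constructor
    · intro y hy
      obtain ⟨x, hx, hax⟩ := hhead j hj
      rw [hx] at hy
      have hy' : x = y := by simpa using hy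
      subst hy'
      exact ⟨hax, Or.inr (Or.inl ⟨j, hj, rfl, hx⟩)⟩
    · refine List.IsChain.imp ?_ (chain_mem (hP j hj).2)
      rintro x y ⟨h1, h2, h3⟩
      exact ⟨h1, Or.inl ⟨j, hj, h2, h3⟩⟩
  have hne : ∀ j, j < h → p j ≠ [] := by
    intro j hj h0
    obtain ⟨x, hx, _⟩ := hhead j hj
    rw [h0] at hx
    simp at hx
  have hBnd : ∀ j, j < h → (a j :: p j).Nodup := by
    intro j hj
    rw [List.nodup_cons]
    exact ⟨hap j j hj hj, (hP j hj).1⟩
  have hlastB : ∀ j, j < h → (a j :: p j).getLast? = (p j).getLast? := by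
    intro j hj
    rw [List.getLast?_cons]
    obtain ⟨x, hx, _⟩ := hlast j hj
    rw [hx]
    rfl
  have main : ∀ m, m + 1 ≤ h → (bl a p (m + 1)).Nodup ∧ (bl a p (m + 1)).IsChain S ∧
      (bl a p (m + 1)).head? = some (a 0) ∧ (bl a p (m + 1)).getLast? = (p m).getLast? ∧
      2 * (m + 1) ≤ (bl a p (m + 1)).length := by
    intro m
    induction m with
    | zero =>
      intro hm
      have e : bl a p 1 = a 0 :: p 0 := by
        rw [show (1 : ℕ) = 0 + 1 from rfl, bl_succ]
        simp [bl]
      rw [e]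
      refine ⟨hBnd 0 (by omega), hPS 0 (by omega), rfl, hlastB 0 (by omega), ?_⟩
      have := List.length_pos_iff.2 (hne 0 (by omega))
      simp only [List.length_cons]
      omega
    | succ m ih =>
      intro hm
      obtain ⟨i1, i2, i3, i4, i5⟩ := ih (by omega)
      rw [bl_succ]
      refine ⟨?_, ?_, ?_, ?_, ?_⟩
      · rw [List.nodup_append]
        refine ⟨i1, hBnd _ (by omega), ?_⟩
        intro x hx y hy hxy
        subst hxy
        obtain ⟨j, hj, hx⟩ := (mem_bl a p _ x).1 hx
        rcases hx with hx | hx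
        · rcases List.mem_cons.1 hy with hy | hy
          · have := hinj j (m + 1) (by omega) (by omega) (hx.symm.trans hy)
            omega
          · exact hap j (m + 1) (by omega) (by omega) (hx ▸ hy)
        · rcases List.mem_cons.1 hy with hy | hy
          · exact hap (m + 1) j (by omega) (by omega) (hy ▸ hx)
          · exact hdis j (m + 1) (by omega) (by omega) (by omega) x hx hy
      · rw [List.isChain_append]
        refine ⟨i2, hPS _ (by omega), ?_⟩
        intro x hx y hy
        rw [i4] at hx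
        have hy' : a (m + 1) = y := by simpa using hy
        subst hy'
        obtain ⟨z, hz, haz⟩ := hlast m (by omega)
        have hzx : z = x := by rw [hz] at hx; simpa using hx
        subst hzx
        rw [Nat.mod_eq_of_lt (by omega)] at haz
        exact ⟨haz, Or.inr (Or.inr ⟨m, by omega, hz, rfl⟩)⟩
      · rw [List.head?_append, i3]
        rfl
      · rw [List.getLast?_append, hlastB (m + 1) (by omega)]
        obtain ⟨z, hz, haz⟩ := hlast (m + 1) (by omega)
        rw [hz]
        rfl
      · have := List.length_pos_iff.2 (hne (m + 1) (by omega))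
        rw [List.length_append, List.length_cons]
        omega
  obtain ⟨m, rfl⟩ : ∃ m, h = m + 1 := ⟨h - 1, by omega⟩
  obtain ⟨i1, i2, i3, i4, i5⟩ := main m le_rfl
  refine ⟨bl a p (m + 1), ⟨by omega, ⟨i1, i2.imp fun _ _ hxy => hxy.1⟩, ?_⟩, ?_, ?_⟩
  · intro x y hx hy
    rw [i3] at hx
    rw [i4] at hy
    obtain ⟨z, hz, haz⟩ := hlast m (by omega)
    rw [Nat.mod_self] at haz
    have h1 : a 0 = x := by simpa using hx
    have h2 : z = y := by rw [hz] at hy; simpa using hy
    subst h1 h2
    exact haz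
  · intro x
    rw [mem_bl]
    constructor
    · rintro ⟨j, hj, hx | hx⟩
      · exact Or.inl ⟨j, hj, hx⟩
      · exact Or.inr ⟨j, hj, hx⟩
    · rintro (⟨j, hj, hx⟩ | ⟨j, hj, hx⟩)
      · exact ⟨j, hj, Or.inl hx⟩
      · exact ⟨j, hj, Or.inr hx⟩
  · intro j hj z hz k hk hCA
    have hdj : ∀ i, i < m + 1 → z ∈ p i → i = j := by
      intro i hi hzi
      by_contra hij
      exact hdis i j hi hj hij z hzi hz
    have key : ∀ l1 l2 x y, bl a p (m + 1) = l1 ++ x :: y :: l2 → RR (m + 1) a p x y := by
      intro l1 l2 x y he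
      rw [he, List.isChain_append] at i2
      exact (List.isChain_cons_cons.1 i2.2.1).1.2
    rcases hCA with hN | hN
    · rcases hN with ⟨l1, l2, he⟩ | ⟨h1, h2⟩
      · rcases key l1 l2 z (a k) he with ⟨i, hi, h3, h4⟩ | ⟨i, hi, h3, h4⟩ | ⟨i, hi, h3, h4⟩
        · exact absurd h4 (hap k i hk hi)
        · exact absurd (List.mem_of_mem_head? (by rw [h4]; rfl)) (hap k i hk hi)
        · have h5 : i = j := hdj i (by omega) (List.mem_of_getLast? h3)
          subst h5
          have h6 := hinj k (i + 1) hk hi h4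
          right
          refine ⟨?_, h3⟩
          rw [Nat.mod_eq_of_lt hi]
          exact h6
      · rw [i4] at h1
        rw [i3] at h2
        have h5 : m = j := hdj m (by omega) (List.mem_of_getLast? h1)
        subst h5
        have h6 : a 0 = a k := by simpa using h2
        have h7 := hinj 0 k (by omega) hk h6
        right
        refine ⟨?_, h1⟩
        rw [Nat.mod_self]
        exact h7.symm
    · rcases hN with ⟨l1, l2, he⟩ | ⟨h1, h2⟩
      · rcases key l1 l2 (a k) z he with ⟨i, hi, h3, h4⟩ | ⟨i, hi, h3, h4⟩ | ⟨i, hi, h3, h4⟩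
        · exact absurd h3 (hap k i hk hi)
        · have h5 : i = j := hdj i hi (List.mem_of_mem_head? (by rw [h4]; rfl))
          subst h5
          have h6 := hinj k i hk hi h3
          left
          exact ⟨h6, h4⟩
        · exact absurd (List.mem_of_getLast? h3) (hap k i hk (by omega))
      · rw [i4] at h1
        exact absurd (List.mem_of_getLast? h1) (hap k m hk (by omega))

end Pool.Agent.W584.CH
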